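import Pool.Agent.H3.HG.Targets

/-!
Mathlib's second homology group is `Z2`.
-/

set_option autoImplicit false

namespace Pool.Agent.H57.HG

open Pool.Agent.H3.HG Finsupp CategoryTheory groupHomology

variable {Γ : Type} [Group Γ]

/-- The trivial representation. -/
noncomputable abbrev TR (Γ : Type) [Group Γ] : Rep ℤ Γ := Rep.trivial ℤ Γ ℤ

private theorem d21_eq (c : Γ × Γ →₀ ℤ) : (d₂₁ (TR Γ)).hom c = dd Γ c := by
  induction c using Finsupp.induction_linear with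
  | zero => simp
  | add f g hf hg => rw [map_add, map_add, hf, hg]
  | single p n =>
    obtain ⟨g, h⟩ := p
    rw [dd_single]
    exact d₂₁_single (A := TR Γ) (g, h) n

private theorem d32_mem (y : Γ × Γ × Γ →₀ ℤ) : (d₃₂ (TR Γ)).hom y ∈ bd Γ := by
  induction y using Finsupp.induction_linear with
  | zero => simp
  | add f g hf hg =>
    rw [map_add]
    exact add_mem hf hg
  | single p n =>
    obtain ⟨g, h, k⟩ := p
    have h1 := d₃₂_single (A := TR Γ) (g, h, k) n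
    have h2 : (d₃₂ (TR Γ)).hom (single (g, h, k) n) =
        n • (single (h, k) (1 : ℤ) - single (g * h, k) 1 + single (g, h * k) 1 - single (g, h) 1) := by
      refine h1.trans ?_
      simp [smul_sub, smul_add]
    rw [h2]
    have h3 : single (h, k) (1 : ℤ) - single (g * h, k) 1 + single (g, h * k) 1 -
        single (g, h) 1 ∈ bd Γ := AddSubgroup.subset_closure ⟨g, h, k, rfl⟩
    exact AddSubgroup.zsmul_mem _ h3 n

private theorem bd_le (c : Γ × Γ →₀ ℤ) (hc : c ∈ bd Γ) : ∃ y, (d₃₂ (TR Γ)).hom y = c := by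
  induction hc using AddSubgroup.closure_induction with
  | mem x hx =>
    obtain ⟨g, h, k, rfl⟩ := hx
    exact ⟨single (g, h, k) (1 : ℤ), d₃₂_single (A := TR Γ) (g, h, k) (1 : ℤ)⟩
  | zero => exact ⟨0, map_zero _⟩
  | add a b _ _ ha hb =>
    obtain ⟨y, hy⟩ := ha
    obtain ⟨z, hz⟩ := hb
    exact ⟨y + z, by rw [map_add, hy, hz]⟩
  | neg a _ ha =>
    obtain ⟨y, hy⟩ := ha
    exact ⟨-y, by rw [map_neg, hy]⟩

private theorem mem_bd_iff (c : Γ × Γ →₀ ℤ) : c ∈ bd Γ ↔ c ∈ boundaries₂ (TR Γ) := by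
  constructor
  · intro h
    obtain ⟨y, hy⟩ := bd_le c h
    exact ⟨y, hy⟩
  · rintro ⟨y, hy⟩
    rw [← hy]
    exact d32_mem y

/-- The class of a cycle. -/
private noncomputable def c0 (Γ : Type) [Group Γ] : cycles₂ (TR Γ) →+ Z2 Γ where
  toFun x := ⟨QuotientAddGroup.mk (x : Γ × Γ →₀ ℤ), by
    show dd Γ (x : Γ × Γ →₀ ℤ) = 0
    rw [← d21_eq]
    exact x.2⟩
  map_zero' := rfl
  map_add' _ _ := rfl

private theorem c0_coe (x : cycles₂ (TR Γ)) :
    ((c0 Γ x : Z2 Γ) : M Γ) = QuotientAddGroup.mk (x : Γ × Γ →₀ ℤ) := rfl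

private theorem c0_surj : Function.Surjective (c0 Γ) := by
  rintro ⟨m, hm⟩
  induction m using QuotientAddGroup.induction_on with
  | H c =>
    have h : dd Γ c = 0 := hm
    refine ⟨⟨c, ?_⟩, rfl⟩
    show (d₂₁ (TR Γ)).hom c = 0
    rw [d21_eq, h]

private theorem c0_eq_iff (x y : cycles₂ (TR Γ)) :
    c0 Γ x = c0 Γ y ↔ H2π (TR Γ) x = H2π (TR Γ) y := by
  rw [H2π_eq_iff, ← mem_bd_iff, Subtype.ext_iff, c0_coe, c0_coe, ← sub_eq_zero,
    ← QuotientAddGroup.mk_sub, QuotientAddGroup.eq_zero_iff]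

private theorem pi_surj (z : HH Γ) : ∃ x : cycles₂ (TR Γ), H2π (TR Γ) x = z := by
  induction z using H2_induction_on with
  | h x => exact ⟨x, rfl⟩

/-- The inverse map. -/
private noncomputable def jf (z : HH Γ) : Z2 Γ := c0 Γ (pi_surj z).choose

private theorem jf_pi (x : cycles₂ (TR Γ)) : jf (H2π (TR Γ) x : HH Γ) = c0 Γ x := by
  unfold jf
  rw [c0_eq_iff]
  exact (pi_surj _).choose_spec

/-- The equivalence. -/
private noncomputable def J (Γ : Type) [Group Γ] : HH Γ ≃+ Z2 Γ :=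
  AddEquiv.ofBijective (AddMonoidHom.mk' jf (by
    intro a b
    obtain ⟨x, rfl⟩ := pi_surj a
    obtain ⟨y, rfl⟩ := pi_surj b
    have h : (H2π (TR Γ) x : HH Γ) + H2π (TR Γ) y = H2π (TR Γ) (x + y) := (map_add _ _ _).symm
    rw [h, jf_pi, jf_pi, jf_pi, map_add])) (by
    constructor
    · intro a b hab
      obtain ⟨x, rfl⟩ := pi_surj a
      obtain ⟨y, rfl⟩ := pi_surj b
      have h : jf (H2π (TR Γ) x : HH Γ) = jf (H2π (TR Γ) y : HH Γ) := hab
      rw [jf_pi, jf_pi, c0_eq_iff] at h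
      exact h
    · intro m
      obtain ⟨x, hx⟩ := c0_surj m
      exact ⟨H2π (TR Γ) x, (jf_pi x).trans hx⟩)

private theorem J_pi (x : cycles₂ (TR Γ)) : J Γ (H2π (TR Γ) x : HH Γ) = c0 Γ x := jf_pi x

theorem pf_API : T_API := by
  refine ⟨fun Γ _ => J Γ, ?_⟩
  intro Γ' Γ _ _ φ z
  obtain ⟨x, rfl⟩ := pi_surj z
  have h1 : HHmap φ (H2π (TR Γ') x : HH Γ') =
      H2π (TR Γ) (mapCycles₂ (A := TR Γ') (B := TR Γ) φ (𝟙 (TR Γ')) x) := by
    have := ConcreteCategory.congr_hom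
      (H2π_comp_map (A := TR Γ') (B := TR Γ) φ (𝟙 (TR Γ'))) x
    exact this
  rw [h1, J_pi, J_pi, c0_coe, c0_coe, Mmap_mk]
  congr 1
  rw [coe_mapCycles₂]
  have h2 : ∀ c : Γ' × Γ' →₀ ℤ,
      (chainsMap₂ (A := TR Γ') (B := TR Γ) φ (𝟙 (TR Γ'))).hom c =
        Finsupp.mapDomain (Prod.map φ φ) c := by
    intro c
    induction c using Finsupp.induction_linear with
    | zero => simp
    | add f g hf hg => rw [map_add, hf, hg, Finsupp.mapDomain_add]
    | single p n =>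
      rw [Finsupp.mapDomain_single]
      simp
      rfl
  exact h2 x.1

end Pool.Agent.H57.HG
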