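import Pool.Agent.H3.HG.Targets

/-!
Locally free groups have no second homology.
-/

set_option autoImplicit false

namespace Pool.Agent.H57.HG

open Pool.Agent.H3.HG Finsupp

private theorem dd_map {Γ' Γ : Type} [Group Γ'] [Group Γ] (φ : Γ' →* Γ) (c : Γ' × Γ' →₀ ℤ) :
    dd Γ (Finsupp.mapDomain (Prod.map φ φ) c) = Finsupp.mapDomain φ (dd Γ' c) := by
  induction c using Finsupp.induction_linear with
  | zero => simp
  | add f g hf hg =>
    rw [Finsupp.mapDomain_add, map_add, map_add, hf, hg, Finsupp.mapDomain_add]
  | single p n =>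
    obtain ⟨g, h⟩ := p
    rw [Finsupp.mapDomain_single, Prod.map_apply, dd_single, dd_single, Finsupp.mapDomain_add,
      Finsupp.mapDomain_single, ← map_mul]
    congr 1
    rw [← Finsupp.mapDomain.addMonoidHom_apply φ (single h n - single (g * h) n), map_sub,
      Finsupp.mapDomain.addMonoidHom_apply, Finsupp.mapDomain.addMonoidHom_apply,
      Finsupp.mapDomain_single, Finsupp.mapDomain_single]

private theorem free_zero (hSUR : T_SUR) (hZER : T_ZER) (K : Type) [Group K] [IsFreeGroup K] :
    ∀ m ∈ Z2 K, m = 0 := by
  intro m hm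
  obtain ⟨lam, hlam⟩ := exists_lift (proj_of_free K) (MonoidHom.id K)
  obtain ⟨x, hx, hxm⟩ := hSUR K K (MonoidHom.id K) lam hlam Function.surjective_id m hm
  have hx1 : x = 1 := (Subgroup.mem_inf.mp hx).1
  rw [← hxm, hx1]
  exact (hZER K K (MonoidHom.id K) lam hlam).2.2

theorem pf_LFR (hSUR : T_SUR) (hZER : T_ZER) : T_LFR := by
  classical
  intro N _ hN m hm
  induction m using QuotientAddGroup.induction_on with
  | H c =>
    have hc : dd N c = 0 := hm
    set S : Finset N := c.support.image Prod.fst ∪ c.support.image Prod.snd with hS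
    set K : Subgroup N := Subgroup.closure (S : Set N) with hK
    have hfg : K.FG := ⟨S, rfl⟩
    haveI : IsFreeGroup K := hN K hfg
    have hinj : Function.Injective (Prod.map K.subtype K.subtype) :=
      K.subtype_injective.prodMap K.subtype_injective
    have hsupp : (c.support : Set (N × N)) ⊆ Set.range (Prod.map K.subtype K.subtype) := by
      rintro ⟨a, b⟩ hab
      have hab' : (a, b) ∈ c.support := hab
      have ha : a ∈ K := by
        apply Subgroup.subset_closure
        rw [hS]
        simp only [Finset.coe_union, Set.mem_union, Finset.mem_coe, Finset.mem_image]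
        exact Or.inl ⟨(a, b), hab', rfl⟩
      have hb : b ∈ K := by
        apply Subgroup.subset_closure
        rw [hS]
        simp only [Finset.coe_union, Set.mem_union, Finset.mem_coe, Finset.mem_image]
        exact Or.inr ⟨(a, b), hab', rfl⟩
      exact ⟨(⟨a, ha⟩, ⟨b, hb⟩), rfl⟩
    set c2 := Finsupp.comapDomain (Prod.map K.subtype K.subtype) c hinj.injOn with hc2
    have hmap : Finsupp.mapDomain (Prod.map K.subtype K.subtype) c2 = c :=
      Finsupp.mapDomain_comapDomain _ hinj c hsupp
    have hd : dd K c2 = 0 := by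
      apply Finsupp.mapDomain_injective K.subtype_injective
      rw [← dd_map, hmap, hc, Finsupp.mapDomain_zero]
    have h0 : (QuotientAddGroup.mk c2 : M K) = 0 := free_zero hSUR hZER K _ hd
    rw [← hmap, ← Mmap_mk, h0, map_zero]

end Pool.Agent.H57.HG
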